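import Mathlib

set_option autoImplicit false

namespace Pool.Agent.Results.MP_207d4d_co.Counter

/-- Graphs on `n` vertices with loops and multiple edges: symmetric multiplicity tables. -/
def MG (n : ℕ) : Type := {m : Fin n → Fin n → ℕ // ∀ i j, m i j = m j i}

def Le {a b : ℕ} (H : MG a) (G : MG b) : Prop :=
  ∃ f : Fin a → Fin b, Function.Injective f ∧ ∀ i j, H.1 i j = G.1 (f i) (f j)

def isoS (n : ℕ) : Setoid (MG n) where
  r K L := ∃ e : Equiv.Perm (Fin n), ∀ i j, K.1 i j = L.1 (e i) (e j)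
  iseqv := ⟨fun _ => ⟨1, fun _ _ => rfl⟩,
    fun ⟨e, h⟩ => ⟨e.symm, fun i j => by rw [h]; simp⟩,
    fun ⟨e, h⟩ ⟨e', h'⟩ => ⟨e.trans e', fun i j => by rw [h, h']; rfl⟩⟩

def Conn {n : ℕ} (K : MG n) : Prop :=
  0 < n ∧ ∀ i j, Relation.ReflTransGen (fun x y => K.1 x y ≠ 0) i j

noncomputable def rk {a b : ℕ} (H : MG a) (G : MG b) (k : ℕ) : ℕ :=
  (Quotient.mk (isoS (a + k)) '' {K | Le H K ∧ Le K G}).ncard

noncomputable def rkc {a b : ℕ} (H : MG a) (G : MG b) (k : ℕ) : ℕ :=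
  (Quotient.mk (isoS (a + k)) '' {K | Conn K ∧ Le H K ∧ Le K G}).ncard

def pull {a b : ℕ} (G : MG b) (f : Fin a → Fin b) : MG a :=
  ⟨fun i j => G.1 (f i) (f j), fun _ _ => G.2 _ _⟩

def inv {n : ℕ} (K : MG n) : ℕ := ∑ i, 10 ^ (∑ j, K.1 i j)

lemma inv_eq {n : ℕ} (K L : MG n) (h : (isoS n).r K L) : inv K = inv L := by
  obtain ⟨e, h⟩ := h
  unfold inv
  rw [← Equiv.sum_comp e (fun i => 10 ^ (∑ j, L.1 i j))]
  refine Finset.sum_congr rfl fun i _ => ?_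
  rw [← Equiv.sum_comp e (fun j => L.1 (e i) j)]
  simp only [h]

lemma fin_cls {n b : ℕ} (G : MG b) (X : Set (MG n)) (hX : ∀ K ∈ X, Le K G) :
    (Quotient.mk (isoS n) '' X).Finite := by
  refine Set.Finite.image _ ((Set.finite_range fun f : Fin n → Fin b => pull G f).subset ?_)
  intro K hK
  obtain ⟨f, _, h⟩ := hX K hK
  exact ⟨f, Subtype.ext (funext fun i => funext fun j => (h i j).symm)⟩

lemma lower {n b c : ℕ} (G : MG b) (X : Set (MG n)) (hX : ∀ K ∈ X, Le K G)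
    (R : Fin c → MG n) (hR : ∀ r, R r ∈ X) (hi : ∀ r s, inv (R r) = inv (R s) → r = s) :
    c ≤ (Quotient.mk (isoS n) '' X).ncard := by
  have inj : Function.Injective fun r => Quotient.mk (isoS n) (R r) := fun r s h =>
    hi r s (inv_eq _ _ (Quotient.exact h))
  have := Set.ncard_le_ncard (s := Set.range fun r => Quotient.mk (isoS n) (R r))
    (by rintro _ ⟨r, rfl⟩; exact ⟨R r, hR r, rfl⟩) (fin_cls G X hX)
  rwa [Set.ncard_range_of_injective inj, Nat.card_eq_fintype_card, Fintype.card_fin] at this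

lemma upper {n c : ℕ} (X : Set (MG n)) (R : Fin c → MG n)
    (h : ∀ K ∈ X, ∃ r, (isoS n).r K (R r)) : (Quotient.mk (isoS n) '' X).ncard ≤ c := by
  have := Set.ncard_le_ncard (s := Quotient.mk (isoS n) '' X)
    (t := (fun r => Quotient.mk (isoS n) (R r)) '' Set.univ)
    (by
      rintro _ ⟨K, hK, rfl⟩
      obtain ⟨r, hr⟩ := h K hK
      exact ⟨r, trivial, (Quotient.sound hr).symm⟩) (Set.toFinite _)
  refine this.trans ((Set.ncard_image_le (Set.toFinite _)).trans ?_)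
  simp [Set.ncard_univ]

lemma sorted {n b : ℕ} (G : MG b) (K : MG n) (h : Le K G) :
    ∃ g : Fin n → Fin b, StrictMono g ∧ (isoS n).r K (pull G g) := by
  obtain ⟨f, hf, h⟩ := h
  refine ⟨f ∘ Tuple.sort f, (Tuple.monotone_sort f).strictMono_of_injective
    (hf.comp (Tuple.sort f).injective), (Tuple.sort f).symm, fun i j => ?_⟩
  simp [pull, h]

lemma iso_of {n : ℕ} (K L : MG n) (s : Fin n → Fin n) (hs : Function.Injective s)
    (h : ∀ i j, K.1 i j = L.1 (s i) (s j)) : (isoS n).r K L :=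
  ⟨Equiv.ofBijective s (Finite.injective_iff_bijective.1 hs), h⟩

lemma conn_of {n : ℕ} (K : MG (n + 1)) (ρ : Fin (n + 1) → ℕ)
    (h : ∀ i, i = 0 ∨ ∃ j, ρ j < ρ i ∧ K.1 j i ≠ 0) : Conn K := by
  have h0 : ∀ t, ∀ i, ρ i < t → Relation.ReflTransGen (fun x y => K.1 x y ≠ 0) 0 i ∧
      Relation.ReflTransGen (fun x y => K.1 x y ≠ 0) i 0 := by
    intro t
    induction t with
    | zero => intro i hi; omega
    | succ t ih =>
      intro i hi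
      rcases h i with rfl | ⟨j, hj, e⟩
      · exact ⟨.refl, .refl⟩
      · obtain ⟨p, q⟩ := ih j (by omega)
        exact ⟨p.tail e, .head (by rw [K.2]; exact e) q⟩
  exact ⟨by omega, fun i j => (h0 _ i (Nat.lt_succ_self _)).2.trans (h0 _ j (Nat.lt_succ_self _)).1⟩

lemma cut {n : ℕ} (K L : MG n) (hK : Conn K) (h : (isoS n).r K L) (c : Fin n → Bool)
    (hc : ∀ i j, L.1 i j ≠ 0 → c i = c j) (i j : Fin n) : c i = c j := by
  obtain ⟨e, h⟩ := h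
  have : ∀ x y, Relation.ReflTransGen (fun x y => K.1 x y ≠ 0) x y → c (e x) = c (e y) := by
    intro x y hxy
    induction hxy with
    | refl => rfl
    | tail _ p ih => rw [ih]; exact hc _ _ (by rw [← h]; exact p)
  simpa using this _ _ (hK.2 (e.symm i) (e.symm j))

def K1 : MG 1 := ⟨fun _ _ => 0, fun _ _ => rfl⟩

lemma K1_le {n b : ℕ} (G : MG b) (hG : ∀ i, G.1 i i = 0) (f : Fin (n + 1) → Fin b) :
    Le K1 (pull G f) :=
  ⟨fun _ => 0, fun _ _ _ => Subsingleton.elim _ _, fun _ _ => (hG _).symm⟩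

lemma pull_le {n b : ℕ} (G : MG b) (f : Fin n → Fin b) (hf : Function.Injective f) :
    Le (pull G f) G := ⟨f, hf, fun _ _ => rfl⟩

lemma five {b : ℕ} (g : Fin 5 → Fin b) : g = ![g 0, g 1, g 2, g 3, g 4] := by
  funext i; fin_cases i <;> rfl

def G1 : MG 8 := ⟨![![0, 0, 0, 1, 0, 0, 1, 1], ![0, 0, 1, 0, 0, 0, 1, 1], ![0, 1, 0, 0, 1, 1, 0, 0], ![1, 0, 0, 0, 1, 1, 0, 0], ![0, 0, 1, 1, 0, 0, 1, 1], ![0, 0, 1, 1, 0, 0, 1, 1], ![1, 1, 0, 0, 1, 1, 0, 0], ![1, 1, 0, 0, 1, 1, 0, 0]], by decide +kernel⟩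

def G2 : MG 7 := ⟨![![0, 0, 0, 0, 1, 1, 0], ![0, 0, 0, 1, 0, 1, 0], ![0, 0, 0, 1, 1, 0, 0], ![0, 1, 1, 0, 0, 0, 1], ![1, 0, 1, 0, 0, 0, 1], ![1, 1, 0, 0, 0, 0, 1], ![0, 0, 0, 1, 1, 1, 0]], by decide +kernel⟩

def R14 : Fin 6 → Fin 4 → Fin 8 := ![![0, 1, 2, 3], ![0, 1, 2, 4], ![0, 1, 2, 6], ![0, 1, 4, 5], ![0, 1, 4, 6], ![0, 1, 6, 7]]
def R15 : Fin 5 → Fin 5 → Fin 8 := ![![0, 1, 2, 3, 4], ![0, 1, 2, 4, 5], ![0, 1, 2, 4, 6], ![0, 1, 4, 5, 6], ![0, 1, 4, 6, 7]]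
def R16 : Fin 6 → Fin 6 → Fin 8 := ![![0, 1, 2, 3, 4, 5], ![0, 1, 2, 3, 4, 6], ![0, 1, 2, 4, 5, 6], ![0, 1, 2, 4, 6, 7], ![0, 1, 4, 5, 6, 7], ![0, 3, 4, 5, 6, 7]]
def R24 : Fin 3 → Fin 4 → Fin 7 := ![![0, 5, 1, 3], ![0, 5, 1, 6], ![0, 4, 5, 6]]
def R25 : Fin 2 → Fin 5 → Fin 7 := ![![0, 4, 2, 3, 1], ![0, 5, 1, 6, 3]]
def R26 : Fin 3 → Fin 6 → Fin 7 := ![![0, 4, 5, 2, 1, 3], ![0, 4, 2, 6, 3, 1], ![0, 4, 5, 6, 1, 3]]

def C1 : List (Fin 5 × (Fin 5 → Fin 5)) := [(0, ![0, 1, 2, 3, 4]), (0, ![2, 3, 0, 1, 4]), (1, ![0, 1, 2, 3, 4]), (2, ![0, 1, 2, 3, 4]), (2, ![2, 4, 0, 1, 3]), (1, ![1, 0, 2, 3, 4]), (2, ![1, 0, 2, 3, 4]), (2, ![4, 2, 0, 1, 3]), (3, ![0, 1, 2, 3, 4]), (4, ![0, 1, 2, 3, 4]), (2, ![0, 2, 4, 1, 3]), (2, ![2, 0, 1, 4, 3]), (1, ![2, 0, 1, 3, 4]), (2, ![0, 2, 1, 3, 4]), (2, ![2, 0, 4, 1, 3]), (4, ![0, 3, 1, 2, 4]), (4, ![3, 0, 4, 1, 2]), (2, ![0, 4,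 2, 1, 3]), (2, ![2, 1, 0, 4, 3]), (1, ![2, 1, 0, 3, 4]), (4, ![0, 1, 3, 4, 2]), (3, ![0, 1, 4, 2, 3]), (4, ![0, 3, 4, 1, 2])]

def C2 : List (Fin 2 × (Fin 5 → Fin 5)) := [(0, ![0, 4, 2, 3, 1]), (0, ![0, 2, 4, 3, 1]), (0, ![2, 0, 4, 3, 1]), (0, ![1, 3, 4, 0, 2]), (0, ![0, 4, 3, 1, 2]), (1, ![0, 2, 4, 1, 3]), (1, ![2, 0, 4, 1, 3]), (0, ![1, 3, 4, 2, 0]), (1, ![2, 0, 1, 4, 3]), (1, ![4, 0, 2, 3, 1]), (0, ![1, 3, 2, 4, 0]), (1, ![0, 2, 1, 4, 3]), (1, ![4, 2, 0, 3, 1]), (1, ![4, 2, 3, 0, 1])]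

lemma c1 : ∀ a b : Fin 8, a < b → ∀ c, b < c → ∀ d, c < d → ∀ e, d < e → ∃ x ∈ C1,
    ∀ i j, (pull G1 ![a, b, c, d, e]).1 i j = (pull G1 (R15 x.1)).1 (x.2 i) (x.2 j) := by
  decide +kernel

lemma c2 : ∀ a b : Fin 7, a < b → ∀ c, b < c → ∀ d, c < d → ∀ e, d < e → (∃ x ∈ C2,
    ∀ i j, (pull G2 ![a, b, c, d, e]).1 i j = (pull G2 (R25 x.1)).1 (x.2 i) (x.2 j)) ∨
    ∃ z : Fin 32, (∃ i j : Fin 5, z.val.testBit i ≠ z.val.testBit j) ∧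
      ∀ i j : Fin 5, (pull G2 ![a, b, c, d, e]).1 i j ≠ 0 → z.val.testBit i = z.val.testBit j := by
  decide +kernel

lemma c1i : ∀ x ∈ C1, ∀ i j, x.2 i = x.2 j → i = j := by
  have : (C1.all fun x => decide (∀ i j, x.2 i = x.2 j → i = j)) = true := by decide +kernel
  simpa using this
lemma c2i : ∀ x ∈ C2, ∀ i j, x.2 i = x.2 j → i = j := by
  have : (C2.all fun x => decide (∀ i j, x.2 i = x.2 j → i = j)) = true := by decide +kernel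
  simpa using this
lemma l1 : ∀ i, G1.1 i i = 0 := by decide +kernel
lemma l2 : ∀ i, G2.1 i i = 0 := by decide +kernel

lemma u1 : rk K1 G1 4 ≤ 5 := by
  refine upper _ (fun r => pull G1 (R15 r)) fun K hK => ?_
  obtain ⟨g, hg, h⟩ := sorted G1 K hK.2
  obtain ⟨x, hx, e⟩ := c1 (g 0) (g 1) (hg (by decide)) (g 2) (hg (by decide)) (g 3)
    (hg (by decide)) (g 4) (hg (by decide))
  rw [← five g] at e
  exact ⟨x.1, (isoS 5).trans h (iso_of _ _ x.2 (c1i x hx) e)⟩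

lemma u2 : rkc K1 G2 4 ≤ 2 := by
  refine upper _ (fun r => pull G2 (R25 r)) fun K hK => ?_
  obtain ⟨g, hg, h⟩ := sorted G2 K hK.2.2
  have := c2 (g 0) (g 1) (hg (by decide)) (g 2) (hg (by decide)) (g 3)
    (hg (by decide)) (g 4) (hg (by decide))
  rw [← five g] at this
  rcases this with ⟨x, hx, e⟩ | ⟨z, ⟨i, j, hij⟩, hz⟩
  · exact ⟨x.1, (isoS 5).trans h (iso_of _ _ x.2 (c2i x hx) e)⟩
  · exact absurd (cut K _ hK.1 h (fun i => z.val.testBit i) hz i j) hij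

lemma a14 : 6 ≤ rk K1 G1 3 :=
  lower G1 _ (fun _ h => h.2) (fun r => pull G1 (R14 r))
    (fun r => ⟨K1_le G1 l1 _, pull_le _ _ (by revert r; decide +kernel)⟩) (by decide +kernel)

lemma a16 : 6 ≤ rk K1 G1 5 :=
  lower G1 _ (fun _ h => h.2) (fun r => pull G1 (R16 r))
    (fun r => ⟨K1_le G1 l1 _, pull_le _ _ (by revert r; decide +kernel)⟩) (by decide +kernel)

lemma a24 : 3 ≤ rkc K1 G2 3 :=
  lower G2 _ (fun _ h => h.2.2) (fun r => pull G2 (R24 r))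
    (fun r => ⟨conn_of _ Fin.val (by revert r; decide +kernel), K1_le G2 l2 _,
      pull_le _ _ (by revert r; decide +kernel)⟩) (by decide +kernel)

lemma a26 : 3 ≤ rkc K1 G2 5 :=
  lower G2 _ (fun _ h => h.2.2) (fun r => pull G2 (R26 r))
    (fun r => ⟨conn_of _ Fin.val (by revert r; decide +kernel), K1_le G2 l2 _,
      pull_le _ _ (by revert r; decide +kernel)⟩) (by decide +kernel)

theorem result :
    (∃ (a b : ℕ) (H : MG a) (G : MG b), Le H G ∧ ∃ i j k : ℕ, i < j ∧ j < k ∧ a + k ≤ b ∧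
      rk H G j < rk H G i ∧ rk H G j < rk H G k) ∧
    (∃ (a b : ℕ) (H : MG a) (G : MG b), Conn H ∧ Conn G ∧ Le H G ∧
      ∃ i j k : ℕ, i < j ∧ j < k ∧ a + k ≤ b ∧
        rkc H G j < rkc H G i ∧ rkc H G j < rkc H G k) := by
  have := u1; have := u2; have := a14; have := a16; have := a24; have := a26
  refine ⟨⟨1, 8, K1, G1, K1_le G1 l1 id, 3, 4, 5, by omega, by omega, by omega, by omega, by omega⟩,
    ⟨1, 7, K1, G2, conn_of _ Fin.val (by decide), conn_of _ ![0, 5, 3, 6, 1, 2, 4] (by decide +kernel),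
      K1_le G2 l2 id, 3, 4, 5, by omega, by omega, by omega, by omega, by omega⟩⟩

end Pool.Agent.Results.MP_207d4d_co.Counter
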